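import Pool.Agent.W957.CH.Stm

/-! Project CH (MP_d275fd_co, S11629): task CH-A, vertices with two attachments. -/

set_option autoImplicit false

namespace Pool.Agent.W612.CH

open Finset Pool.Agent.W957.CH

theorem key (h : S_EAR) {V : Type} [DecidableEq V] (X : Cx V) (n : ℕ) (c : ℕ → V) (a b : ℕ)
    (W : Finset V) (hok : Ok X) (hg : Good X n c) (hcon : Con X.G W) (hWA : W ⊆ X.A)
    (hdis : Disjoint W (img n c)) (hbn : b < n) (hfr : Free X.G n c a b)
    (h2 : 2 * (b - a) ≤ n) {v v' : V} {i k j : ℕ} (hv : v ∈ W) (hv' : v' ∈ W)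
    (hi1 : a ≤ i) (hi2 : i ≤ b) (hk1 : a ≤ k) (hk2 : k ≤ b) (hik : i ≠ k)
    (hvi : X.G.Adj v (c i)) (hvk : X.G.Adj v' (c k)) (hj : j < n) (hvj : X.G.Adj v (c j))
    (hb : ¬ (i < j ∧ j < k)) (hb' : ¬ (k < j ∧ j < i)) : j = i ∨ j = k := by
  have hin : ∀ l : List V, (∀ x ∈ l, x ∈ W) → ∀ x ∈ l, x ∈ X.A ∧ x ∉ img n c := fun l hl x hx =>
    ⟨hWA (hl x hx), fun hx' => (Finset.disjoint_left.mp hdis) (hl x hx) hx'⟩
  rcases lt_or_gt_of_ne hik with hlt | hlt
  · obtain ⟨l, hl, hlW⟩ := hcon.2 v hv v' hv'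
    have hear : Ear X n c i k l := ⟨⟨v, v', hl, hvi.symm, hvk⟩, hin l hlW⟩
    have hvl : v ∈ l := List.mem_of_mem_head? hl.2.1
    have := (h V X n c i k l hok hg hlt (by omega)
      (fun p hp hp' => hfr p (by omega) (by omega)) (by omega) hear).2.1 v hvl j hj
      (by omega) hvj
    rcases this with h' | h'
    · exact Or.inl h'.1
    · exact Or.inr h'.1
  · obtain ⟨l, hl, hlW⟩ := hcon.2 v' hv' v hv
    have hear : Ear X n c k i l := ⟨⟨v', v, hl, hvk.symm, hvi⟩, hin l hlW⟩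
    have hvl : v ∈ l := List.mem_of_mem_getLast? hl.2.2
    have := (h V X n c k i l hok hg hlt (by omega)
      (fun p hp hp' => hfr p (by omega) (by omega)) (by omega) hear).2.1 v hvl j hj
      (by omega) hvj
    rcases this with h' | h'
    · exact Or.inr h'.1
    · exact Or.inl h'.1

theorem t_A (h : S_EAR) : S_A := by
  classical
  intro V _ X n c a b W T hok hg hpc hab hbn hfr h2 hcard v hv i hi1 hi2 hvi j hj hvj
  by_contra hji
  have hlt : ({i, j} : Finset ℕ).card < (att X.G c a b W).card := by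
    have : ({i, j} : Finset ℕ).card ≤ 2 := Finset.card_le_two
    omega
  obtain ⟨k, hk, hk'⟩ := Finset.exists_mem_notMem_of_card_lt_card hlt
  simp only [att, Finset.mem_filter, Finset.mem_Icc] at hk
  obtain ⟨⟨hk1, hk2⟩, v', hv', hvk⟩ := hk
  simp only [Finset.mem_insert, Finset.mem_singleton, not_or] at hk'
  obtain ⟨hki, hkj⟩ := hk'
  by_cases hbt : (i < j ∧ j < k) ∨ (k < j ∧ j < i)
  · have hja : a ≤ j := by omega
    have hjb : j ≤ b := by omega
    have := key h X n c a b W hok hg hpc.con hpc.sub hpc.dis hbn hfr h2 hv hv' hja hjb hk1 hk2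
      (Ne.symm hkj) hvj hvk (lt_of_le_of_lt hi2 hbn) hvi (by omega) (by omega)
    omega
  · have := key h X n c a b W hok hg hpc.con hpc.sub hpc.dis hbn hfr h2 hv hv' hi1 hi2 hk1 hk2
      (Ne.symm hki) hvi hvk hj hvj (by tauto) (by tauto)
    omega

end Pool.Agent.W612.CH
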