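import Pool.Agent.W957.CH.Stm2

/-! Project CH (MP_d275fd_co, S11629): task CH-NC, components of the new cycle. -/

set_option autoImplicit false

namespace Pool.Agent.W612.CH

open Finset Pool.Agent.W957.CH

/-- restriction of a graph to a set of vertices (the others become isolated) -/
def rs {V : Type} (G : SimpleGraph V) (S : Finset V) : SimpleGraph V where
  Adj x y := G.Adj x y ∧ x ∈ S ∧ y ∈ S
  symm := ⟨fun _ _ h => ⟨h.1.symm, h.2.2, h.2.1⟩⟩
  loopless := ⟨fun _ h => G.irrefl h.1⟩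

theorem rs_mem {V : Type} {G : SimpleGraph V} {S : Finset V} {a b : V} (ha : a ∈ S)
    (w : (rs G S).Walk a b) : b ∈ S := by
  induction w with
  | nil => exact ha
  | cons h w ih => exact ih h.2.2

theorem rs_PF {V : Type} [DecidableEq V] {G : SimpleGraph V} {S : Finset V} {a b : V}
    (ha : a ∈ S) (hr : (rs G S).Reachable a b) :
    ∃ l, PF G a b l ∧ ∀ x ∈ l, x ∈ S ∧ (rs G S).Reachable a x := by
  obtain ⟨w, hw⟩ := hr.exists_isPath
  refine ⟨w.support, ⟨⟨hw.support_nodup, ?_⟩, ?_, ?_⟩, ?_⟩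
  · exact (w.isChain_adj_support).imp fun x y h => h.1
  · rw [← w.cons_tail_support]
    rfl
  · rw [List.getLast?_eq_getLast_of_ne_nil w.support_ne_nil, w.getLast_support]
  · intro x hx
    have h1 : (rs G S).Reachable a x := ⟨w.takeUntil x hx⟩
    exact ⟨rs_mem ha (w.takeUntil x hx), h1⟩

theorem mem_nbr {V : Type} (G : SimpleGraph V) (A P : Finset V) (w : V) :
    w ∈ nbr G A P ↔ w ∈ A ∧ w ∉ P ∧ ∃ p ∈ P, G.Adj p w := by
  classical
  unfold nbr
  simp

theorem t_NC (h1 : S_GR) (h2 : S_X) (h3 : S_PC0) : S_NC := by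
  classical
  intro V _ X n c l Rm E p q hok hg hL hrer hcard hpq hRm hCl
  obtain ⟨S, hS⟩ : ∃ S : Finset V, S = X.A \ l.toFinset := ⟨_, rfl⟩
  have hpos : ∀ r, r ∈ Rm → c r ∈ S := by
    intro r hr
    have hrn := (hrer.fr r hr).1
    rw [hS, Finset.mem_sdiff, List.mem_toFinset]
    refine ⟨hg.sub r hrn, fun hl => ?_⟩
    rcases (hrer.mem (c r)).1 hl with ⟨i, hi, hi', hir⟩ | hE
    · have := hg.cr.inj i r hi hrn hir
      exact hi' (this ▸ hr)
    · exact (hrer.EA _ hE).2 (by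
        rw [img, Finset.mem_image]
        exact ⟨r, Finset.mem_range.mpr hrn, rfl⟩)
  have himg : ∀ x ∈ S, x ∈ img n c → ∃ r ∈ Rm, c r = x := by
    intro x hx hx'
    rw [img, Finset.mem_image] at hx'
    obtain ⟨r, hr, rfl⟩ := hx'
    rw [Finset.mem_range] at hr
    refine ⟨r, ?_, rfl⟩
    by_contra hcon
    rw [hS, Finset.mem_sdiff, List.mem_toFinset] at hx
    exact hx.2 ((hrer.mem _).2 (Or.inl ⟨r, hr, hcon, rfl⟩))
  have hpRm : p ∈ Rm := hRm p le_rfl hpq
  obtain ⟨K, hK⟩ : ∃ K : Finset V, K = X.A.filter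
      (fun x => x ∈ S ∧ (rs X.G S).Reachable (c p) x) := ⟨_, rfl⟩
  have hSA : S ⊆ X.A := by rw [hS]; exact Finset.sdiff_subset
  have hKm : ∀ x, x ∈ K ↔ x ∈ S ∧ (rs X.G S).Reachable (c p) x := by
    intro x
    rw [hK, Finset.mem_filter]
    exact ⟨fun h => h.2, fun h => ⟨hSA h.1, h⟩⟩
  have hcpK : c p ∈ K := (hKm _).2 ⟨hpos p hpRm, SimpleGraph.Reachable.refl _⟩
  have hcon : Con X.G K := by
    refine ⟨⟨c p, hcpK⟩, fun u hu v hv => ?_⟩
    rw [hKm] at hu hv
    obtain ⟨l', hl', hl''⟩ := rs_PF hu.1 (hu.2.symm.trans hv.2)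
    exact ⟨l', hl', fun x hx => (hKm x).2 ⟨(hl'' x hx).1, hu.2.trans (hl'' x hx).2⟩⟩
  have hKA : K ⊆ X.A := fun x hx => hSA ((hKm x).1 hx).1
  have hrK : ∀ r, p ≤ r → r ≤ q → c r ∈ K := by
    intro r hpr
    induction r, hpr using Nat.le_induction with
    | base => intro _; exact hcpK
    | succ r hpr ih =>
      intro hr
      have hr0 := ih (by omega)
      have hr1 := hRm (r + 1) (by omega) hr
      have hadj := hg.cr.adj r (hrer.fr _ hr1).1
      rw [hKm] at hr0 ⊢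
      have : (rs X.G S).Adj (c r) (c (r + 1)) := ⟨hadj, hr0.1, hpos _ hr1⟩
      exact ⟨hpos _ hr1, hr0.2.trans this.reachable⟩
  have hKl : Disjoint K l.toFinset := by
    rw [Finset.disjoint_left]
    intro x hx hx'
    have := ((hKm x).1 hx).1
    rw [hS, Finset.mem_sdiff] at this
    exact this.2 hx'
  have hnl : nbr X.G X.A K ⊆ l.toFinset := by
    intro w hw
    rw [mem_nbr] at hw
    obtain ⟨hwA, hwK, u, hu, hadj⟩ := hw
    by_contra hcon'
    have hwS : w ∈ S := by rw [hS, Finset.mem_sdiff]; exact ⟨hwA, hcon'⟩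
    rw [hKm] at hu
    have : (rs X.G S).Adj u w := ⟨hadj, hu.1, hwS⟩
    exact hwK ((hKm w).2 ⟨hwS, hu.2.trans this.reachable⟩)
  have hwalk : ∀ (Kx : Finset V), Comp X n c Kx → ∀ (y z : V) (w : (rs X.G S).Walk y z),
      y ∈ Kx → z ∈ img n c → ∃ r ∈ Rm, At X c Kx r := by
    intro Kx hKx y z w
    induction w with
    | nil => intro hy hz; exact absurd hz (Finset.disjoint_left.mp hKx.2.2.1 hy)
    | @cons y y' z h w ih =>
      intro hy hz
      by_cases hy' : y' ∈ img n c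
      · obtain ⟨r, hr, hry⟩ := himg y' h.2.2 hy'
        exact ⟨r, hr, y, hy, by rw [hry]; exact h.1⟩
      · refine ih ?_ hz
        by_contra hcon'
        exact hy' (hKx.2.2.2 (by
          rw [mem_nbr]
          exact ⟨hSA h.2.2, hcon', y, hy, h.1⟩))
  have hcp : c p ∈ img n c := by
    rw [img, Finset.mem_image]
    exact ⟨p, Finset.mem_range.mpr (hrer.fr p hpRm).1, rfl⟩
  have hKB : Disjoint K X.B := by
    rw [Finset.disjoint_left]
    intro x hx hxB
    obtain ⟨hxS, hxr⟩ := (hKm x).1 hx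
    by_cases hxi : x ∈ img n c
    · obtain ⟨r, hr, rfl⟩ := himg x hxS hxi
      exact (hCl r hr).2.1 hxB
    · obtain ⟨Kx, hKx, hxK⟩ := (h3 V X n c hok hg).1 x (hSA hxS) hxi
      obtain ⟨w⟩ := hxr.symm
      obtain ⟨r, hr, hat⟩ := hwalk Kx hKx x (c p) w hxK hcp
      exact Finset.disjoint_left.mp ((hCl r hr).2.2.2 Kx hKx hat) hxK hxB
  refine ⟨K, hcon, hKA, hrK, hKl, hKB, hnl, ?_⟩
  obtain ⟨n', c', hg', himg'⟩ := (h1 V X n c l Rm E hok hg hrer hcard).2.2.2 (by omega)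
  have hX := h2 V X n' c' K 0 hok hg' hcon hKA (by rw [himg']; exact hKl) (by
    rw [himg', Finset.sdiff_eq_empty_iff_subset.mpr hnl, Finset.disjoint_iff_inter_eq_empty.mp hKB]
    simp)
  rw [himg', Finset.inter_eq_left.mpr hnl] at hX
  exact hX

end Pool.Agent.W612.CH
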